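import Pool.Agent.DWC.NCDef

/-!
# A noncommutative deformation of `𝒪_C` is an iterated extension of `𝒪_C`

Let `F` be a deformation over `Γ`. For a right ideal `A` of `Γ` let `A F` be the subsheaf generated
by the `a m`. If `A' ⊆ A` has codimension one and `A 𝔪 ⊆ A'` then `A F / A' F ≅ 𝒪_C`.
-/

set_option autoImplicit false

open LaurentPolynomial

universe u

namespace Pool.Agent.H45CV

open Pool.Agent.DWC

variable {k : Type u} [Field k] {X : Nbhd k} {Γ : Type u} [Ring Γ] [Algebra k Γ]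
  {ε : Γ →ₐ[k] k} (D : NCDef X ε)

theorem coeff_CT (n : ℤ) (a : k) (i : ℤ) :
    (C a * T n : k[T;T⁻¹]).coeff i = if n = i then a else 0 := by
  rw [← single_eq_C_mul_T, AddMonoidAlgebra.coeff_single, Finsupp.single_apply]

theorem coeff_Tm (f : k[T;T⁻¹]) (a b : ℤ) : (T a * f).coeff b = f.coeff (b - a) := by
  have h : b = a + (b - a) := by ring
  conv_lhs => rw [h]
  exact (AddMonoidAlgebra.coeff_single_mul_add f (1 : k) a (b - a)).trans (one_mul _)

/-- `H¹(𝒪(-1)) = 0` -/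
theorem split_f (f : k[T;T⁻¹]) :
    ∃ f0 f1 : k[T;T⁻¹], f0 ∈ Reg0 k ∧ f1 ∈ RegInf k 0 ∧ f = f0 + T (-1) * f1 := by
  induction f using LaurentPolynomial.induction_on' with
  | add p q hp hq =>
    obtain ⟨p0, p1, h1, h2, rfl⟩ := hp
    obtain ⟨q0, q1, h3, h4, rfl⟩ := hq
    refine ⟨p0 + q0, p1 + q1, fun i hi => ?_, fun i hi => ?_, by ring⟩
    · rw [AddMonoidAlgebra.coeff_add, Finsupp.add_apply, h1 i hi, h3 i hi, add_zero]
    · rw [AddMonoidAlgebra.coeff_add, Finsupp.add_apply, h2 i hi, h4 i hi, add_zero]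
  | C_mul_T n a =>
    rcases lt_or_ge n 0 with h | h
    · refine ⟨0, C a * T (n + 1), fun i _ => rfl, fun i hi => ?_, ?_⟩
      · rw [coeff_CT, if_neg (by omega)]
      · rw [zero_add, T_mul, mul_assoc, ← T_add, add_neg_cancel_right]
    · refine ⟨C a * T n, 0, fun i hi => ?_, fun i _ => rfl, by rw [mul_zero, add_zero]⟩
      rw [coeff_CT, if_neg (by omega)]

/-- `H⁰(𝒪) = k` -/
theorem eq_C {f : k[T;T⁻¹]} (h0 : f ∈ Reg0 k) (h1 : f ∈ RegInf k 0) : f = C (f.coeff 0) := by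
  ext i
  have e : (C (f.coeff 0) : k[T;T⁻¹]) = C (f.coeff 0) * T 0 := by rw [T_zero, mul_one]
  rw [e, coeff_CT]
  rcases lt_trichotomy i 0 with h | h | h
  · rw [h0 i h, if_neg (by omega)]
  · rw [if_pos h.symm, h]
  · rw [h1 i h, if_neg (by omega)]

theorem mem_aug' {γ : Γ} : γ ∈ aug ε ↔ ε γ = 0 := Iff.rfl

/-- `π` is `k`-linear. -/
theorem pi_algebraMap (c : k) (m : D.F.M) : D.π (algebraMap k X.B c • m) = c • D.π m := by
  rw [D.π_smul, AlgHom.commutes, Algebra.smul_def]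

theorem pi_rho (γ : Γ) (m : D.F.M) : D.π (D.ρ γ m) = ε γ • D.π m := by
  have h1 : D.π (D.ρ (γ - algebraMap k Γ (ε γ)) m) = 0 := by
    refine (D.chart.ker _ (AddSubgroup.mem_top _)).2 ?_
    refine AddSubgroup.subset_closure ⟨_, ?_, m, AddSubgroup.mem_top _, rfl⟩
    rw [map_sub, AlgHom.commutes, Algebra.algebraMap_self, RingHom.id_apply, sub_self]
  have h2 : D.ρ γ m = D.ρ (γ - algebraMap k Γ (ε γ)) m + algebraMap k X.B (ε γ) • m := by
    rw [← D.ρ_algebraMap, ← LinearMap.add_apply, ← map_add, sub_add_cancel]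
  rw [h2, map_add, h1, zero_add, pi_algebraMap]

/-- `∑ ρ (c i) (b i)` -/
noncomputable def phi {ι : Type u} (b : ι → D.F.M) : (ι →₀ Γ) →+ D.F.M :=
  Finsupp.liftAddHom fun i => (AddMonoidHom.mk' (fun γ => D.ρ γ (b i)) fun γ γ' => by
    rw [map_add, LinearMap.add_apply])

theorem phi_apply {ι : Type u} (b : ι → D.F.M) (c : ι →₀ Γ) :
    phi D b c = c.sum fun i γ => D.ρ γ (b i) := rfl

theorem phi_single {ι : Type u} (b : ι → D.F.M) (i : ι) (γ : Γ) :
    phi D b (Finsupp.single i γ) = D.ρ γ (b i) := by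
  rw [phi_apply, Finsupp.sum_single_index]
  rw [map_zero, LinearMap.zero_apply]

theorem phi_mul {ι : Type u} (b : ι → D.F.M) (γ : Γ) (c : ι →₀ Γ) :
    phi D b (c.mapRange (fun x => γ * x) (mul_zero γ)) = D.ρ γ (phi D b c) := by
  rw [phi_apply, phi_apply, Finsupp.sum_mapRange_index, Finsupp.sum, Finsupp.sum, map_sum]
  · refine Finset.sum_congr rfl fun i _ => ?_
    rw [map_mul]
    rfl
  · intro i
    rw [map_zero, LinearMap.zero_apply]

theorem pi_phi {ι : Type u} (b : ι → D.F.M) (c : ι →₀ Γ) :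
    D.π (phi D b c) = c.sum fun i γ => ε γ • D.π (b i) := by
  rw [phi_apply, Finsupp.sum, Finsupp.sum, map_sum]
  exact Finset.sum_congr rfl fun i _ => pi_rho D _ _

/-- The basis of a chart. -/
structure IsBas {ι : Type u} (b : ι → D.F.M) (M' : AddSubgroup D.F.M) : Prop where
  mem : ∀ i, b i ∈ M'
  exi : ∀ m ∈ M', ∃ c : ι →₀ Γ, phi D b c = m
  inj : ∀ c : ι →₀ Γ, phi D b c = 0 → c = 0
  indep : ∀ a : ι →₀ k, (a.sum fun i t => t • D.π (b i)) = 0 → a = 0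

theorem exists_bas {M' : AddSubgroup D.F.M} {W' : Set k[T;T⁻¹]}
    (hc : IsFlatChart ε (fun γ m => D.ρ γ m) D.π M' W') :
    ∃ (ι : Type u) (b : ι → D.F.M), IsBas D b M' := by
  obtain ⟨ι, b, hb, hu⟩ := hc.free
  have hinj : ∀ c : ι →₀ Γ, phi D b c = 0 → c = 0 := by
    intro c h0
    obtain ⟨c0, _, h2⟩ := hu 0 M'.zero_mem
    have e1 := h2 c h0
    have e2 := h2 0 (by simp)
    rw [e1, e2]
  have hexi : ∀ m ∈ M', ∃ c : ι →₀ Γ, phi D b c = m := by
    intro m hm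
    obtain ⟨c, h1, _⟩ := hu m hm
    exact ⟨c, h1⟩
  refine ⟨ι, b, hb, hexi, hinj, ?_⟩
  intro a ha
  -- elements of the closure have coefficients in the augmentation ideal
  have hcl : ∀ m ∈ AddSubgroup.closure {y | ∃ γ : Γ, ε γ = 0 ∧ ∃ m' ∈ M', y = D.ρ γ m'},
      ∃ c : ι →₀ Γ, phi D b c = m ∧ ∀ i, ε (c i) = 0 := by
    intro m hm
    induction hm using AddSubgroup.closure_induction with
    | mem y hy =>
      obtain ⟨γ, hγ, m', hm', rfl⟩ := hy
      obtain ⟨c, rfl⟩ := hexi m' hm'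
      refine ⟨c.mapRange (fun x => γ * x) (mul_zero γ), phi_mul D b γ c, fun i => ?_⟩
      rw [Finsupp.mapRange_apply, map_mul, hγ, zero_mul]
    | zero => exact ⟨0, by rw [map_zero], fun i => by simp⟩
    | add x y _ _ hx hy =>
      obtain ⟨c, hc1, hc2⟩ := hx
      obtain ⟨c', hc1', hc2'⟩ := hy
      refine ⟨c + c', by rw [map_add, hc1, hc1'], fun i => ?_⟩
      rw [Finsupp.add_apply, map_add, hc2, hc2', add_zero]
    | neg x _ hx =>
      obtain ⟨c, hc1, hc2⟩ := hx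
      refine ⟨-c, by rw [map_neg, hc1], fun i => ?_⟩
      rw [Finsupp.neg_apply, map_neg, hc2, neg_zero]
  set ca : ι →₀ Γ := a.mapRange (fun t => algebraMap k Γ t) (map_zero _) with hca
  have hcai : ∀ i, ca i = algebraMap k Γ (a i) := fun i => Finsupp.mapRange_apply
  have hmem : phi D b ca ∈ M' := by
    rw [phi_apply, Finsupp.sum]
    exact AddSubgroup.sum_mem _ fun i _ => hc.stable _ _ (hb i)
  have hpi : D.π (phi D b ca) = 0 := by
    rw [pi_phi, hca, Finsupp.sum_mapRange_index]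
    · simpa using ha
    · intro i
      rw [map_zero, zero_smul]
  obtain ⟨c, hc1, hc2⟩ := hcl _ ((hc.ker _ hmem).1 hpi)
  have h1 : c - ca = 0 := hinj _ (by rw [map_sub, hc1, sub_self])
  have h2 : c = ca := sub_eq_zero.1 h1
  ext i
  have h3 := hc2 i
  rw [h2, hcai, AlgHom.commutes] at h3
  simpa using h3

/-- The subsheaf generated by `A F`. -/
def AF (A : Submodule k Γ) : Submodule X.B D.F.M :=
  Submodule.span X.B {y | ∃ a ∈ A, ∃ m, y = D.ρ a m}

theorem mem_AF {A : Submodule k Γ} {a : Γ} (ha : a ∈ A) (m : D.F.M) : D.ρ a m ∈ AF D A :=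
  Submodule.subset_span ⟨a, ha, m, rfl⟩

theorem AF_mono {A A' : Submodule k Γ} (h : A' ≤ A) : AF D A' ≤ AF D A :=
  Submodule.span_mono fun _ ⟨a, ha, m, hm⟩ => ⟨a, h ha, m, hm⟩

theorem AF_top : AF D ⊤ = ⊤ := by
  rw [eq_top_iff]
  intro m _
  have := mem_AF D (A := ⊤) (Submodule.mem_top (x := (1 : Γ))) m
  rwa [map_one] at this

theorem AF_bot : AF D ⊥ = ⊥ := by
  rw [eq_bot_iff]
  refine Submodule.span_le.2 ?_
  rintro _ ⟨a, ha, m, rfl⟩
  rw [Submodule.mem_bot] at ha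
  rw [ha, map_zero]
  exact Submodule.zero_mem _

/-- The map `ρ a m ↦ lam a • π m`. -/
theorem exists_theta (A : Submodule k Γ) (lam : Γ →ₗ[k] k)
    (hlam : ∀ a ∈ A, ∀ γ, ε γ = 0 → lam (a * γ) = 0) :
    ∃ Θ : D.F.M →+ k[T;T⁻¹], (∀ a ∈ A, ∀ m, Θ (D.ρ a m) = lam a • D.π m) ∧
      ∀ p ∈ AF D A, ∀ b : X.B, Θ (b • p) = X.res b * Θ p := by
  obtain ⟨ι, b, hb⟩ := exists_bas D D.chart
  have hinj : Function.Injective (phi D b) := (injective_iff_map_eq_zero _).2 hb.inj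
  have hsurj : Function.Surjective (phi D b) := fun m => hb.exi m (AddSubgroup.mem_top _)
  let e : (ι →₀ Γ) ≃+ D.F.M := AddEquiv.ofBijective (phi D b) ⟨hinj, hsurj⟩
  let Ψ : (ι →₀ Γ) →+ k[T;T⁻¹] := Finsupp.liftAddHom fun i =>
    (AddMonoidHom.mk' (fun γ => lam γ • D.π (b i)) fun γ γ' => by
      rw [map_add, add_smul])
  have hΨ : ∀ c, Ψ c = c.sum fun i γ => lam γ • D.π (b i) := fun c => rfl
  let Θ : D.F.M →+ k[T;T⁻¹] := Ψ.comp e.symm.toAddMonoidHom
  have hΘ : ∀ c, Θ (phi D b c) = Ψ c := by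
    intro c
    show Ψ (e.symm (e c)) = Ψ c
    rw [e.symm_apply_apply]
  have key : ∀ a ∈ A, ∀ m, Θ (D.ρ a m) = lam a • D.π m := by
    intro a ha m
    obtain ⟨c, rfl⟩ := hsurj m
    rw [← phi_mul, hΘ, hΨ, pi_phi, Finsupp.sum_mapRange_index]
    · rw [Finsupp.sum, Finsupp.sum, Finset.smul_sum]
      refine Finset.sum_congr rfl fun i _ => ?_
      rw [smul_smul]
      congr 1
      have h1 : a * c i = ε (c i) • a + a * (c i - algebraMap k Γ (ε (c i))) := by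
        rw [mul_sub, ← Algebra.commutes, ← Algebra.smul_def]
        abel
      rw [h1, map_add, map_smul, hlam a ha]
      · rw [add_zero, smul_eq_mul, mul_comm]
      · rw [map_sub, AlgHom.commutes, Algebra.algebraMap_self, RingHom.id_apply, sub_self]
    · intro i
      rw [map_zero, zero_smul]
  refine ⟨Θ, key, ?_⟩
  intro p hp
  induction hp using Submodule.span_induction with
  | mem y hy =>
    obtain ⟨a, ha, m, rfl⟩ := hy
    intro b'
    rw [← map_smul, key a ha, key a ha, D.π_smul, mul_smul_comm]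
  | zero =>
    intro b'
    rw [smul_zero, map_zero, mul_zero]
  | add x y _ _ hx hy =>
    intro b'
    rw [smul_add, map_add, map_add, hx, hy, mul_add]
  | smul b₁ x _ hx =>
    intro b'
    rw [smul_smul, hx, hx, map_mul, mul_assoc]

/-- `⊤ 𝔪 ^ j` -/
def JJ (ε : Γ →ₐ[k] k) (j : ℕ) : Submodule k Γ := ⊤ * aug ε ^ j

theorem JJ_zero : JJ ε 0 = ⊤ := by
  unfold JJ
  rw [pow_zero, mul_one]

theorem JJ_succ (j : ℕ) : JJ ε (j + 1) = JJ ε j * aug ε := by
  unfold JJ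
  rw [pow_succ, mul_assoc]

theorem exists_functional {A : Submodule k Γ} {x : Γ} (hx : x ∉ A) :
    ∃ lam : Γ →ₗ[k] k, (∀ a ∈ A, lam a = 0) ∧ lam x = 1 := by
  obtain ⟨f, hf, hA⟩ := Submodule.exists_le_ker_of_notMem hx
  refine ⟨(f x)⁻¹ • f, fun a ha => ?_, ?_⟩
  · rw [LinearMap.smul_apply, LinearMap.mem_ker.1 (hA ha), smul_zero]
  · rw [LinearMap.smul_apply, smul_eq_mul, inv_mul_cancel₀ hf]

theorem theta_zero {A A₂ : Submodule k Γ} (hA : A ≤ A₂) {lam : Γ →ₗ[k] k}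
    {Θ : D.F.M →+ k[T;T⁻¹]} (hΘ : ∀ a ∈ A₂, ∀ m, Θ (D.ρ a m) = lam a • D.π m)
    (hlin : ∀ p ∈ AF D A₂, ∀ b : X.B, Θ (b • p) = X.res b * Θ p) (h0 : ∀ a ∈ A, lam a = 0) :
    ∀ p ∈ AF D A, Θ p = 0 := by
  intro p hp
  have : p ∈ AF D A₂ ∧ Θ p = 0 := by
    induction hp using Submodule.span_induction with
    | mem y hy =>
      obtain ⟨a, ha, m, rfl⟩ := hy
      refine ⟨mem_AF D (hA ha) m, ?_⟩
      rw [hΘ a (hA ha), h0 a ha, zero_smul]
    | zero => exact ⟨Submodule.zero_mem _, map_zero _⟩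
    | add x y _ _ hx hy =>
      exact ⟨Submodule.add_mem _ hx.1 hy.1, by rw [map_add, hx.2, hy.2, add_zero]⟩
    | smul b₁ x _ hx =>
      exact ⟨Submodule.smul_mem _ _ hx.1, by rw [hlin _ hx.1, hx.2, mul_zero]⟩
  exact this.2

/-- `A F ∩ M' = A M'` -/
theorem sat (hN : ∃ N, aug ε ^ N = ⊥) {A : Submodule k Γ} (hA : ∀ a ∈ A, ∀ γ, a * γ ∈ A)
    {M' : AddSubgroup D.F.M} {ι : Type u} {b : ι → D.F.M} (hb : IsBas D b M') {c : ι →₀ Γ}
    (hc : phi D b c ∈ AF D A) (i : ι) : c i ∈ A := by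
  obtain ⟨N, hN⟩ := hN
  have key : ∀ j : ℕ, ∀ i, c i ∈ A ⊔ JJ ε j := by
    intro j
    induction j with
    | zero =>
      intro i
      rw [JJ_zero, sup_top_eq]
      exact Submodule.mem_top
    | succ j ih =>
      intro i
      by_contra hi
      obtain ⟨lam, h1, h2⟩ := exists_functional hi
      have hmul : ∀ a ∈ A ⊔ JJ ε j, ∀ γ, ε γ = 0 → lam (a * γ) = 0 := by
        intro a ha γ hγ
        refine h1 _ ?_
        obtain ⟨a1, ha1, a2, ha2, rfl⟩ := Submodule.mem_sup.1 ha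
        rw [add_mul]
        refine Submodule.add_mem _ (Submodule.mem_sup_left (hA a1 ha1 γ))
          (Submodule.mem_sup_right ?_)
        rw [JJ_succ]
        exact Submodule.mul_mem_mul ha2 hγ
      obtain ⟨Θ, hΘ, hlin⟩ := exists_theta D (A ⊔ JJ ε j) lam hmul
      have h0 : Θ (phi D b c) = 0 := theta_zero D le_sup_left hΘ hlin
        (fun a ha => h1 a (Submodule.mem_sup_left ha)) _ hc
      rw [phi_apply, Finsupp.sum, map_sum] at h0
      have h3 : ((c.mapRange lam (map_zero lam)).sum fun i t => t • D.π (b i)) = 0 := by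
        rw [Finsupp.sum_mapRange_index (fun i => by rw [zero_smul]), Finsupp.sum, ← h0]
        exact Finset.sum_congr rfl fun i _ => (hΘ _ (ih i) _).symm
      have h4 := DFunLike.congr_fun (hb.indep _ h3) i
      rw [Finsupp.mapRange_apply, h2, Finsupp.zero_apply] at h4
      exact one_ne_zero h4
  have := key N i
  rw [JJ, hN, Submodule.mul_bot, sup_bot_eq] at this
  exact this

/-- One step `A' ⊆ A` of a chain of right ideals. -/
structure Step (ε : Γ →ₐ[k] k) (A' A : Submodule k Γ) (a₀ : Γ) (lam : Γ →ₗ[k] k) : Prop where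
  right' : ∀ a ∈ A', ∀ γ, a * γ ∈ A'
  right : ∀ a ∈ A, ∀ γ, a * γ ∈ A
  le : A' ≤ A
  mem : a₀ ∈ A
  one : lam a₀ = 1
  zero : ∀ a ∈ A', lam a = 0
  ker : ∀ a ∈ A, lam a = 0 → a ∈ A'
  mul : ∀ a ∈ A, ∀ γ, ε γ = 0 → a * γ ∈ A'

theorem mul_aug_ne {N : ℕ} (hN : aug ε ^ N = ⊥) {A : Submodule k Γ} (hA : A ≠ ⊥) :
    ∃ a ∈ A, a ∉ A * aug ε := by
  by_contra hcon
  push Not at hcon
  have h1 : ∀ j, A ≤ A * aug ε ^ j := by
    intro j
    induction j with
    | zero => rw [pow_zero, mul_one]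
    | succ j ih =>
      calc A ≤ A * aug ε ^ j := ih
        _ ≤ (A * aug ε) * aug ε ^ j := mul_le_mul' hcon le_rfl
        _ = A * aug ε ^ (j + 1) := by rw [mul_assoc, ← pow_succ']
  have h2 := h1 N
  rw [hN, Submodule.mul_bot] at h2
  exact hA (le_bot_iff.1 h2)

theorem exists_step (hε : IsArt ε) {A : Submodule k Γ} (hr : ∀ a ∈ A, ∀ γ, a * γ ∈ A)
    (hA : A ≠ ⊥) : ∃ A' a₀ lam, Step ε A' A a₀ lam := by
  obtain ⟨N, hN⟩ := hε.nilp
  obtain ⟨a₀, ha₀, h1⟩ := mul_aug_ne hN hA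
  obtain ⟨lam, h2, h3⟩ := exists_functional h1
  have hmul : ∀ a ∈ A, ∀ γ, ε γ = 0 → lam (a * γ) = 0 := fun a ha γ hγ =>
    h2 _ (Submodule.mul_mem_mul ha hγ)
  refine ⟨A ⊓ LinearMap.ker lam, a₀, lam, ?_, hr, inf_le_left, ha₀, h3, fun a ha => ha.2,
    fun a ha h => ⟨ha, h⟩, fun a ha γ hγ => ⟨hr a ha γ, hmul a ha γ hγ⟩⟩
  rintro a ⟨ha, ha'⟩ γ
  refine ⟨hr a ha γ, ?_⟩
  have h4 : a * γ = ε γ • a + a * (γ - algebraMap k Γ (ε γ)) := by
    rw [mul_sub, ← Algebra.commutes, ← Algebra.smul_def]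
    abel
  show lam (a * γ) = 0
  have ha'' : lam a = 0 := ha'
  rw [h4, map_add, map_smul, ha'', smul_zero, zero_add]
  refine hmul a ha _ ?_
  rw [map_sub, AlgHom.commutes, Algebra.algebraMap_self, RingHom.id_apply, sub_self]

/-- Induction on right ideals. -/
theorem right_induction (hε : IsArt ε) (P : Submodule k Γ → Prop) (h0 : P ⊥)
    (hs : ∀ A' A a₀ lam, Step ε A' A a₀ lam → P A' → P A) (A : Submodule k Γ)
    (hr : ∀ a ∈ A, ∀ γ, a * γ ∈ A) : P A := by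
  have := hε.fin
  induction hn : Module.finrank k A using Nat.strong_induction_on generalizing A with
  | _ n ih =>
    by_cases hA : A = ⊥
    · rw [hA]
      exact h0
    obtain ⟨A', a₀, lam, st⟩ := exists_step hε hr hA
    refine hs A' A a₀ lam st (ih _ ?_ A' st.right' rfl)
    rw [← hn]
    refine Submodule.finrank_lt_finrank_of_lt (lt_of_le_of_ne st.le ?_)
    rintro rfl
    have h1 := st.zero a₀ st.mem
    rw [st.one] at h1
    exact one_ne_zero h1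

section step

variable {A' A : Submodule k Γ} {a₀ : Γ} {lam : Γ →ₗ[k] k} (st : Step ε A' A a₀ lam)

include st

theorem Step.exists_theta : ∃ Θ : D.F.M →+ k[T;T⁻¹], (∀ a ∈ A, ∀ m, Θ (D.ρ a m) = lam a • D.π m) ∧
    (∀ p ∈ AF D A, ∀ b : X.B, Θ (b • p) = X.res b * Θ p) ∧ (∀ p ∈ AF D A', Θ p = 0) := by
  obtain ⟨Θ, h1, h2⟩ := Pool.Agent.H45CV.exists_theta D A lam
    fun a ha γ hγ => st.zero _ (st.mul a ha γ hγ)
  exact ⟨Θ, h1, h2, theta_zero D st.le h1 h2 st.zero⟩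

/-- `ρ a₀ u ∈ A' F` if `π u = 0`. -/
theorem Step.rho_mem {u : D.F.M} (hu : D.π u = 0) : D.ρ a₀ u ∈ AF D A' := by
  have h1 := (D.chart.ker u (AddSubgroup.mem_top _)).1 hu
  clear hu
  induction h1 using AddSubgroup.closure_induction with
  | mem y hy =>
    obtain ⟨γ, hγ, m', _, rfl⟩ := hy
    have : D.ρ a₀ (D.ρ γ m') = D.ρ (a₀ * γ) m' := by
      rw [map_mul]
      rfl
    show D.ρ a₀ (D.ρ γ m') ∈ _
    rw [this]
    exact mem_AF D (st.mul a₀ st.mem γ hγ) m'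
  | zero =>
    rw [map_zero]
    exact Submodule.zero_mem _
  | add x y _ _ hx hy =>
    rw [map_add]
    exact Submodule.add_mem _ hx hy
  | neg x _ hx =>
    rw [map_neg]
    exact Submodule.neg_mem _ hx

/-- `A F = A' F + a₀ F` -/
theorem Step.decomp {p : D.F.M} (hp : p ∈ AF D A) :
    ∃ q ∈ AF D A', ∃ v, p = q + D.ρ a₀ v := by
  induction hp using Submodule.span_induction with
  | mem y hy =>
    obtain ⟨a, ha, m, rfl⟩ := hy
    refine ⟨D.ρ (a - lam a • a₀) m, mem_AF D ?_ m, algebraMap k X.B (lam a) • m, ?_⟩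
    · refine st.ker _ (Submodule.sub_mem _ ha (Submodule.smul_mem _ _ st.mem)) ?_
      rw [map_sub, map_smul, st.one, smul_eq_mul, mul_one, sub_self]
    · rw [map_smul, ← D.ρ_algebraMap, ← Module.End.mul_apply, ← map_mul, ← LinearMap.add_apply,
        ← map_add, ← Algebra.smul_def, sub_add_cancel]
  | zero => exact ⟨0, Submodule.zero_mem _, 0, by rw [map_zero, add_zero]⟩
  | add x y _ _ hx hy =>
    obtain ⟨q, hq, v, rfl⟩ := hx
    obtain ⟨q', hq', v', rfl⟩ := hy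
    refine ⟨q + q', Submodule.add_mem _ hq hq', v + v', ?_⟩
    rw [map_add]
    abel
  | smul b x _ hx =>
    obtain ⟨q, hq, v, rfl⟩ := hx
    refine ⟨b • q, Submodule.smul_mem _ _ hq, b • v, ?_⟩
    rw [map_smul, smul_add]

theorem Step.ker_theta {Θ : D.F.M →+ k[T;T⁻¹]} (h1 : ∀ a ∈ A, ∀ m, Θ (D.ρ a m) = lam a • D.π m)
    (h3 : ∀ p ∈ AF D A', Θ p = 0) {p : D.F.M} (hp : p ∈ AF D A) (h : Θ p = 0) :
    p ∈ AF D A' := by
  obtain ⟨q, hq, v, rfl⟩ := st.decomp D hp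
  refine Submodule.add_mem _ hq (st.rho_mem D ?_)
  rwa [map_add, h3 q hq, zero_add, h1 a₀ st.mem, st.one, one_smul] at h

theorem Step.theta_chart (hN : ∃ N, aug ε ^ N = ⊥) {Θ : D.F.M →+ k[T;T⁻¹]}
    (h1 : ∀ a ∈ A, ∀ m, Θ (D.ρ a m) = lam a • D.π m)
    {M' : AddSubgroup D.F.M} {W' : Set k[T;T⁻¹]}
    (hc : IsFlatChart ε (fun γ m => D.ρ γ m) D.π M' W') {p : D.F.M} (hp : p ∈ AF D A)
    (hpM : p ∈ M') : Θ p ∈ W' := by
  obtain ⟨ι, b, hb⟩ := exists_bas D hc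
  obtain ⟨c, rfl⟩ := hb.exi p hpM
  have h2 := sat D hN st.right hb hp
  rw [phi_apply, Finsupp.sum, map_sum]
  refine (hc.image _).1 ⟨∑ i ∈ c.support, D.ρ (algebraMap k Γ (lam (c i))) (b i),
    AddSubgroup.sum_mem _ fun i _ => hc.stable _ _ (hb.mem i), ?_⟩
  rw [map_sum]
  refine Finset.sum_congr rfl fun i _ => ?_
  rw [h1 _ (h2 i), pi_rho, AlgHom.commutes]
  rfl

end step

/-- `A F / A' F ≅ 𝒪_C` -/
theorem Step.isLayer (hN : ∃ N, aug ε ^ N = ⊥) {A' A : Submodule k Γ} {a₀ : Γ}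
    {lam : Γ →ₗ[k] k} (st : Step ε A' A a₀ lam) : IsLayer D.F 0 (AF D A') (AF D A) := by
  obtain ⟨Θ, h1, h2, h3⟩ := st.exists_theta D
  have hv : ∀ v : D.F.M, Θ (D.ρ a₀ v) = D.π v := fun v => by
    rw [h1 a₀ st.mem, st.one, one_smul]
  refine ⟨1, AddMonoidHom.mk' (fun p _ => Θ (p : D.F.M)) (fun p q => ?_), ?_, ?_, ?_, ?_, ?_⟩
  · funext i
    rw [Submodule.coe_add, map_add]
    rfl
  · intro b p i
    exact h2 _ p.2 b
  · intro f
    obtain ⟨v, _, hπ⟩ := (D.chart.image (f 0)).2 (Set.mem_univ _)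
    refine ⟨⟨D.ρ a₀ v, mem_AF D st.mem v⟩, ?_⟩
    funext i
    rw [Subsingleton.elim i 0]
    exact (hv v).trans hπ
  · intro p
    constructor
    · intro h
      exact st.ker_theta D h1 h3 p.2 (congrFun h 0)
    · intro h
      funext i
      exact h3 _ h
  · intro f
    constructor
    · rintro ⟨p, hp, rfl⟩ i
      exact st.theta_chart D hN h1 D.chart₀ p.2 hp
    · intro h
      obtain ⟨v, hv0, hπ⟩ := (D.chart₀.image (f 0)).2 (h 0)
      refine ⟨⟨D.ρ a₀ v, mem_AF D st.mem v⟩, D.chart₀.stable _ _ hv0, ?_⟩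
      funext i
      rw [Subsingleton.elim i 0]
      exact (hv v).trans hπ
  · intro f
    constructor
    · rintro ⟨p, hp, rfl⟩ i
      exact st.theta_chart D hN h1 D.chart₁ p.2 hp
    · intro h
      obtain ⟨v, hv0, hπ⟩ := (D.chart₁.image (f 0)).2 (h 0)
      refine ⟨⟨D.ρ a₀ v, mem_AF D st.mem v⟩, D.chart₁.stable _ _ hv0, ?_⟩
      funext i
      rw [Subsingleton.elim i 0]
      exact (hv v).trans hπ

/-- The sheaf of a deformation is an iterated extension of `𝒪_C`. -/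
theorem exists_loewy (hε : IsArt ε) : ∃ n, Loewy D.F 0 n := by
  have h : ∃ (n : ℕ) (P : ℕ → Submodule X.B D.F.M), P 0 = ⊥ ∧ P n = AF D ⊤ ∧
      ∀ j < n, P j ≤ P (j + 1) ∧ IsLayer D.F 0 (P j) (P (j + 1)) := by
    refine right_induction hε (fun A => ∃ (n : ℕ) (P : ℕ → Submodule X.B D.F.M), P 0 = ⊥ ∧
      P n = AF D A ∧ ∀ j < n, P j ≤ P (j + 1) ∧ IsLayer D.F 0 (P j) (P (j + 1))) ?_ ?_ ⊤
      (fun _ _ _ => Submodule.mem_top)
    · exact ⟨0, fun _ => ⊥, rfl, (AF_bot D).symm, fun j hj => absurd hj (Nat.not_lt_zero j)⟩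
    · rintro A' A a₀ lam st ⟨n, P, h0, hn, hP⟩
      refine ⟨n + 1, fun j => if j ≤ n then P j else AF D A, ?_, ?_, ?_⟩
      · simp only [Nat.zero_le, if_true, h0]
      · simp only [Nat.not_succ_le_self, if_false]
      · intro j hj
        rcases Nat.lt_or_ge j n with h | h
        · simp only [if_pos h.le, if_pos (Nat.succ_le_of_lt h)]
          exact hP j h
        · have hjn : j = n := by omega
          subst hjn
          simp only [le_refl, if_true, Nat.not_succ_le_self, if_false, hn]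
          exact ⟨AF_mono D st.le, st.isLayer D hε.nilp⟩
  obtain ⟨n, P, h0, hn, hP⟩ := h
  exact ⟨n, P, h0, by rw [hn, AF_top], hP⟩

/-- `H⁰(A F(-1)) = 0` -/
theorem inter (hε : IsArt ε) (A : Submodule k Γ) (hr : ∀ a ∈ A, ∀ γ, a * γ ∈ A) :
    ∀ b ∈ D.F.M₁, (X.w : X.B) • b ∈ D.F.M₀ → (X.w : X.B) • b ∈ AF D A → b = 0 := by
  refine right_induction hε (fun A => ∀ b ∈ D.F.M₁, (X.w : X.B) • b ∈ D.F.M₀ →
    (X.w : X.B) • b ∈ AF D A → b = 0) ?_ ?_ A hr
  · intro b _ _ h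
    rw [AF_bot, Submodule.mem_bot] at h
    have : ((X.w⁻¹ : X.Bˣ) : X.B) • (X.w : X.B) • b = 0 := by rw [h, smul_zero]
    rwa [smul_smul, Units.inv_mul, one_smul] at this
  · intro A' A a₀ lam st ih b hb1 hb0 hbA
    obtain ⟨Θ, h1, h2, h3⟩ := st.exists_theta D
    have hbA' : b ∈ AF D A := by
      have : ((X.w⁻¹ : X.Bˣ) : X.B) • (X.w : X.B) • b ∈ AF D A := Submodule.smul_mem _ _ hbA
      rwa [smul_smul, Units.inv_mul, one_smul] at this
    have e0 := st.theta_chart D hε.nilp h1 D.chart₀ hbA hb0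
    have e1 := st.theta_chart D hε.nilp h1 D.chart₁ hbA' hb1
    have e2 := h2 b hbA' X.w
    rw [X.res_w] at e2
    refine ih b hb1 hb0 (st.ker_theta D h1 h3 hbA ?_)
    ext i
    rcases lt_or_ge i 0 with hi | hi
    · exact e0 i hi
    · rw [e2, coeff_Tm, e1 _ (by omega)]
      rfl

/-- `H¹(A F(-1)) = 0` -/
theorem sum_decomp (hε : IsArt ε) (A : Submodule k Γ) (hr : ∀ a ∈ A, ∀ γ, a * γ ∈ A) :
    ∀ m ∈ AF D A, ∃ a ∈ D.F.M₀, a ∈ AF D A ∧ ∃ b ∈ D.F.M₁, b ∈ AF D A ∧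
      m = a + (X.w : X.B) • b := by
  refine right_induction hε (fun A => ∀ m ∈ AF D A, ∃ a ∈ D.F.M₀, a ∈ AF D A ∧ ∃ b ∈ D.F.M₁,
    b ∈ AF D A ∧ m = a + (X.w : X.B) • b) ?_ ?_ A hr
  · intro m hm
    rw [AF_bot, Submodule.mem_bot] at hm
    refine ⟨0, D.F.M₀.zero_mem, Submodule.zero_mem _, 0, D.F.M₁.zero_mem, Submodule.zero_mem _, ?_⟩
    rw [hm, smul_zero, add_zero]
  · intro A' A a₀ lam st ih m hm
    obtain ⟨q, hq, v, rfl⟩ := st.decomp D hm
    obtain ⟨f0, f1, hf0, hf1, hf⟩ : ∃ f0 f1 : k[T;T⁻¹], f0 ∈ Reg0 k ∧ f1 ∈ RegInf k 0 ∧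
        D.π v = f0 + T (-1) * f1 := split_f _
    obtain ⟨v0, hv0, e0⟩ := (D.chart₀.image f0).2 hf0
    obtain ⟨v1, hv1, e1⟩ := (D.chart₁.image f1).2 hf1
    have hu : D.ρ a₀ (v - v0 - (X.w : X.B) • v1) ∈ AF D A' := by
      refine st.rho_mem D ?_
      rw [map_sub, map_sub, D.π_smul, X.res_w, e0, e1, hf]
      ring
    obtain ⟨a, ha0, haA, b, hb1, hbA, hab⟩ := ih _ (Submodule.add_mem _ hq hu)
    refine ⟨a + D.ρ a₀ v0, D.F.M₀.add_mem ha0 (D.chart₀.stable _ _ hv0),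
      Submodule.add_mem _ (AF_mono D st.le haA) (mem_AF D st.mem _), b + D.ρ a₀ v1,
      D.F.M₁.add_mem hb1 (D.chart₁.stable _ _ hv1),
      Submodule.add_mem _ (AF_mono D st.le hbA) (mem_AF D st.mem _), ?_⟩
    rw [map_sub, map_sub, map_smul] at hab
    rw [smul_add]
    have : q + D.ρ a₀ v = (q + (D.ρ a₀ v - D.ρ a₀ v0 - (X.w : X.B) • D.ρ a₀ v1)) +
        (D.ρ a₀ v0 + (X.w : X.B) • D.ρ a₀ v1) := by abel
    rw [this, hab]
    abel

/-- `H⁰(A F) = A e` -/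
theorem global (hε : IsArt ε) {e : D.F.M} (he₀ : e ∈ D.F.M₀) (he₁ : e ∈ D.F.M₁)
    (hπ : D.π e = 1) (A : Submodule k Γ) (hr : ∀ a ∈ A, ∀ γ, a * γ ∈ A) :
    ∀ h ∈ D.F.M₀, h ∈ D.F.M₁ → h ∈ AF D A → ∃ a ∈ A, h = D.ρ a e := by
  refine right_induction hε (fun A => ∀ h ∈ D.F.M₀, h ∈ D.F.M₁ → h ∈ AF D A →
    ∃ a ∈ A, h = D.ρ a e) ?_ ?_ A hr
  · intro h _ _ hh
    rw [AF_bot, Submodule.mem_bot] at hh
    exact ⟨0, Submodule.zero_mem _, by rw [hh, map_zero, LinearMap.zero_apply]⟩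
  · intro A' A a₀ lam st ih h hh0 hh1 hhA
    obtain ⟨Θ, h1, h2, h3⟩ := st.exists_theta D
    have e0 := st.theta_chart D hε.nilp h1 D.chart₀ hhA hh0
    have e1 := st.theta_chart D hε.nilp h1 D.chart₁ hhA hh1
    have e2 := eq_C e0 e1
    set κ := (Θ h).coeff 0
    have hmem : D.ρ (κ • a₀) e ∈ AF D A := mem_AF D (Submodule.smul_mem _ _ st.mem) e
    have h4 : Θ (h - D.ρ (κ • a₀) e) = 0 := by
      rw [map_sub, h1 _ (Submodule.smul_mem _ _ st.mem), hπ, map_smul, st.one, smul_eq_mul,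
        mul_one, e2, sub_eq_zero, LaurentPolynomial.smul_eq_C_mul, mul_one]
    obtain ⟨a, ha, hab⟩ := ih (h - D.ρ (κ • a₀) e)
      (D.F.M₀.sub_mem hh0 (D.chart₀.stable _ _ he₀))
      (D.F.M₁.sub_mem hh1 (D.chart₁.stable _ _ he₁))
      (st.ker_theta D h1 h3 (Submodule.sub_mem _ hhA hmem) h4)
    refine ⟨a + κ • a₀, Submodule.add_mem _ (st.le ha) (Submodule.smul_mem _ _ st.mem), ?_⟩
    rw [map_add, LinearMap.add_apply, ← hab, sub_add_cancel]

theorem rho_inj (hε : IsArt ε) {e : D.F.M} (hπ : D.π e = 1) {γ : Γ} (h : D.ρ γ e = 0) :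
    γ = 0 := by
  by_contra hγ
  -- the right ideal generated by `γ`
  set A : Submodule k Γ := Submodule.span k {y | ∃ δ, y = γ * δ} with hA
  have hγA : γ ∈ A := Submodule.subset_span ⟨1, (mul_one γ).symm⟩
  have hmul : ∀ a ∈ A, ∀ δ, a * δ ∈ A := by
    intro a ha δ
    induction ha using Submodule.span_induction with
    | mem y hy =>
      obtain ⟨δ', rfl⟩ := hy
      exact Submodule.subset_span ⟨δ' * δ, mul_assoc _ _ _⟩
    | zero =>
      rw [zero_mul]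
      exact Submodule.zero_mem _
    | add x y _ _ hx hy =>
      rw [add_mul]
      exact Submodule.add_mem _ hx hy
    | smul c x _ hx =>
      rw [smul_mul_assoc]
      exact Submodule.smul_mem _ _ hx
  have hA0 : A ≠ ⊥ := by
    intro h0
    rw [h0, Submodule.mem_bot] at hγA
    exact hγ hγA
  obtain ⟨A', a₀, lam, st⟩ := exists_step hε hmul hA0
  obtain ⟨Θ, h1, _, _⟩ := st.exists_theta D
  have h2 := h1 γ hγA e
  rw [h, map_zero, hπ] at h2
  have h3 : lam γ = 0 := by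
    by_contra h4
    have h5 := congrArg (fun f => (lam γ)⁻¹ • f) h2
    simp only [smul_zero, smul_smul, inv_mul_cancel₀ h4, one_smul] at h5
    exact one_ne_zero h5.symm
  -- `lam` vanishes on `A`
  have h4 : ∀ a ∈ A, lam a = 0 := by
    intro a ha
    induction ha using Submodule.span_induction with
    | mem y hy =>
      obtain ⟨δ, rfl⟩ := hy
      have h5 : γ * δ = ε δ • γ + γ * (δ - algebraMap k Γ (ε δ)) := by
        rw [mul_sub, ← Algebra.commutes, ← Algebra.smul_def]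
        abel
      rw [h5, map_add, map_smul, h3, smul_zero, zero_add]
      refine st.zero _ (st.mul γ hγA _ ?_)
      rw [map_sub, AlgHom.commutes, Algebra.algebraMap_self, RingHom.id_apply, sub_self]
    | zero => exact map_zero _
    | add x y _ _ hx hy => rw [map_add, hx, hy, add_zero]
    | smul c x _ hx => rw [map_smul, hx, smul_zero]
  have h5 := h4 a₀ st.mem
  rw [st.one] at h5
  exact one_ne_zero h5

theorem mem_AF_aug {m : D.F.M} (hm : D.π m = 0) : m ∈ AF D (aug ε) := by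
  have h1 := (D.chart.ker m (AddSubgroup.mem_top _)).1 hm
  clear hm
  induction h1 using AddSubgroup.closure_induction with
  | mem y hy =>
    obtain ⟨γ, hγ, m', _, rfl⟩ := hy
    exact mem_AF D hγ m'
  | zero => exact Submodule.zero_mem _
  | add x y _ _ hx hy => exact Submodule.add_mem _ hx hy
  | neg x _ hx => exact Submodule.neg_mem _ hx

theorem pi_AF_aug {m : D.F.M} (hm : m ∈ AF D (aug ε)) : D.π m = 0 := by
  induction hm using Submodule.span_induction with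
  | mem y hy =>
    obtain ⟨γ, hγ, m', rfl⟩ := hy
    have h : ε γ = 0 := hγ
    rw [pi_rho, h, zero_smul]
  | zero => exact map_zero _
  | add x y _ _ hx hy => rw [map_add, hx, hy, add_zero]
  | smul b x _ hx => rw [D.π_smul, hx, mul_zero]

end Pool.Agent.H45CV
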